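import Mathlib
import Pool.Agent.W971.MonSp
import Pool.Agent.W971.MonSpFinal
import Pool.Agent.W54.MS.Lb
import Pool.Agent.W54.MS.Ex

/-!
# MP_a6f615_lc: monomial space is not bounded below by degree

Over the rationals the one-element set `{x_1 + ... + x_n + 1}` has a semantic refutation of
monomial space 1, while every polynomial calculus refutation of it has degree more than `n / 2`.
-/

namespace Pool.Agent.Results.MP_a6f615_lc.MonomialSpaceOne

open MvPolynomial Pool.Agent.W971.MonSp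

theorem result :
    (∀ n : ℕ, 1 ≤ n → ∃ (P : Set (MvPolynomial (Fin n) ℚ)) (π : SemRef P) (D : ℕ),
      P = {(∑ i, X i) + 1} ∧ Unsat P ∧ IsDeg P 1 ∧ π.space = 1 ∧ IsPCDeg P D ∧ n < 2 * D) ∧
    (∀ c : ℝ, 0 < c → ∃ (n : ℕ) (P : Set (MvPolynomial (Fin n) ℚ)) (π : SemRef P) (d D : ℕ),
      P.Finite ∧ Unsat P ∧ IsDeg P d ∧ IsPCDeg P D ∧
      (π.space : ℝ) < c * ((D : ℝ) - (d : ℝ))) :=
  target_of W54.MS.lb W54.MS.ex

end Pool.Agent.Results.MP_a6f615_lc.MonomialSpaceOne
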